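import Pool.Agent.N298.HS.StmB

/-! # p-adic ping-pong for measures on characters (HS/PAD) -/

set_option autoImplicit false

namespace Pool.Agent.N711.HS.PAD

open MeasureTheory

section seq

/-- the first event -/
def P1 (f g : ℕ → ℂ) : Prop := ∃ k, f k = 1 ∧ g k ≠ 1

/-- the third event -/
def P3 (f g : ℕ → ℂ) : Prop := ∃ k, f k * g k = 1 ∧ f k ≠ 1

lemma down {p : ℕ} {f : ℕ → ℂ} (hf : ∀ k, f (k + 1) ^ p = f k) {k k' : ℕ} (h : k ≤ k')
    (h1 : f k' = 1) : f k = 1 := by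
  induction k', h using Nat.le_induction with
  | base => exact h1
  | succ n _ ih => exact ih (by rw [← hf n, h1, one_pow])

lemma dj12 {p : ℕ} {f g : ℕ → ℂ} (hf : ∀ k, f (k + 1) ^ p = f k) (hg : ∀ k, g (k + 1) ^ p = g k) :
    ¬ (P1 f g ∧ P1 g f) := by
  rintro ⟨⟨k, h1, h2⟩, k', h3, h4⟩
  rcases le_total k k' with h | h
  · exact h2 (down hg h h3)
  · exact h4 (down hf h h1)

lemma dj13 {p : ℕ} {f g : ℕ → ℂ} (hf : ∀ k, f (k + 1) ^ p = f k) (hg : ∀ k, g (k + 1) ^ p = g k) :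
    ¬ (P1 f g ∧ P3 f g) := by
  rintro ⟨⟨k, h1, h2⟩, k', h3, h4⟩
  rcases le_total k' k with h | h
  · exact h4 (down hf h h1)
  · have h5 : f k * g k = 1 :=
      down (f := fun k => f k * g k) (p := p) (fun k => by rw [mul_pow, hf, hg]) h h3
    rw [h1, one_mul] at h5
    exact h2 h5

lemma dj23 {p : ℕ} {f g : ℕ → ℂ} (hf : ∀ k, f (k + 1) ^ p = f k) (hg : ∀ k, g (k + 1) ^ p = g k) :
    ¬ (P1 g f ∧ P3 f g) := by
  rintro ⟨⟨k, h1, h2⟩, k', h3, h4⟩
  rcases le_total k' k with h | h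
  · have h5 := down hg h h1
    rw [h5, mul_one] at h3
    exact h4 h3
  · have h5 : f k * g k = 1 :=
      down (f := fun k => f k * g k) (p := p) (fun k => by rw [mul_pow, hf, hg]) h h3
    rw [h1, mul_one] at h5
    exact h2 h5

/-- the ping-pong -/
lemma pp {p : ℕ} {f g : ℕ → ℂ} (hf : ∀ k, f (k + 1) ^ p = f k) (hg : ∀ k, g (k + 1) ^ p = g k)
    (h0 : g 0 = 1) (hM : ∃ k, f k ≠ 1 ∨ g k ≠ 1) (h2 : ¬ P1 g f) :
    ∃ k, f k = 1 ∧ g (k + 2) ≠ 1 := by
  have h3 : ∃ k, g k ≠ 1 := by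
    obtain ⟨k, h | h⟩ := hM
    · by_contra hcon
      push Not at hcon
      exact h2 ⟨k, hcon k, h⟩
    · exact ⟨k, h⟩
  classical
  have h4 := Nat.find_spec h3
  set k0 := Nat.find h3 with hk0
  have h5 : k0 ≠ 0 := by
    intro h
    rw [h] at h4
    exact h4 h0
  obtain ⟨k, hk⟩ := Nat.exists_eq_succ_of_ne_zero h5
  have h6 : g k = 1 := by
    have := Nat.find_min h3 (m := k) (by rw [← hk0, hk]; exact Nat.lt_succ_self k)
    push Not at this
    exact this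
  refine ⟨k, ?_, ?_⟩
  · by_contra hcon
    exact h2 ⟨k, h6, hcon⟩
  · intro h7
    rw [hk] at h4
    exact h4 (down hg (by omega) h7)

end seq

section chr

variable {R : Type} [CommRing R]

/-- characters -/
def Ch (χ : R × R → ℂ) : Prop := (∀ a, ‖χ a‖ = 1) ∧ ∀ a b, χ (a + b) = χ a * χ b

lemma ch_ne {χ : R × R → ℂ} (h : Ch χ) (a : R × R) : χ a ≠ 0 := by
  intro h0
  have := h.1 a
  rw [h0, norm_zero] at this
  norm_num at this

lemma ch_zero {χ : R × R → ℂ} (h : Ch χ) : χ 0 = 1 := by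
  have h1 := h.2 0 0
  rw [add_zero] at h1
  have h2 := ch_ne h 0
  field_simp at h1
  exact h1.symm

lemma ch_neg {χ : R × R → ℂ} (h : Ch χ) (a : R × R) : χ (-a) * χ a = 1 := by
  rw [← h.2, neg_add_cancel, ch_zero h]

lemma ch_neg_one {χ : R × R → ℂ} (h : Ch χ) (a : R × R) : χ (-a) = 1 ↔ χ a = 1 := by
  have h1 := ch_neg h a
  constructor
  · intro h2
    rwa [h2, one_mul] at h1
  · intro h2
    rwa [h2, mul_one] at h1

lemma ch_nsmul {χ : R × R → ℂ} (h : Ch χ) (a : R × R) (n : ℕ) : χ (n • a) = χ a ^ n := by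
  induction n with
  | zero => rw [zero_smul, pow_zero, ch_zero h]
  | succ n ih => rw [succ_nsmul, h.2, ih, pow_succ]

lemma ch_zsmul_one {χ : R × R → ℂ} (h : Ch χ) (a : R × R) (h1 : χ a = 1) (n : ℤ) :
    χ (n • a) = 1 := by
  obtain ⟨m, rfl | rfl⟩ := n.eq_nat_or_neg
  · rw [natCast_zsmul, ch_nsmul h, h1, one_pow]
  · rw [neg_smul, natCast_zsmul, ch_neg_one h, ch_nsmul h, h1, one_pow]

variable {p : ℕ} {q : R}

lemma qpow (hpq : (p : R) * q = 1) (k : ℕ) : (p : R) * q ^ (k + 1) = q ^ k := by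
  rw [pow_succ']
  rw [← mul_assoc, hpq, one_mul]

lemma f_down (hpq : (p : R) * q = 1) {χ : R × R → ℂ} (h : Ch χ) (k : ℕ) :
    χ (q ^ (k + 1), 0) ^ p = χ (q ^ k, 0) := by
  rw [← ch_nsmul h]
  congr 1
  ext
  · simp only [Prod.smul_fst, nsmul_eq_mul]
    exact qpow hpq k
  · simp

lemma g_down (hpq : (p : R) * q = 1) {χ : R × R → ℂ} (h : Ch χ) (k : ℕ) :
    χ (0, q ^ (k + 1)) ^ p = χ (0, q ^ k) := by
  rw [← ch_nsmul h]
  congr 1
  ext
  · simp
  · simp only [Prod.smul_snd, nsmul_eq_mul]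
    exact qpow hpq k

lemma ch_split {χ : R × R → ℂ} (h : Ch χ) (r s : R) : χ (r, s) = χ (r, 0) * χ (0, s) := by
  rw [← h.2]
  simp

lemma all_one (hpq : (p : R) * q = 1) (hR : ∀ r : R, ∃ (k : ℕ) (n : ℤ), (p : R) ^ k * r = n)
    {χ : R × R → ℂ} (h : Ch χ) (hM : ∃ v, χ v ≠ 1) :
    ∃ k, χ (q ^ k, 0) ≠ 1 ∨ χ (0, q ^ k) ≠ 1 := by
  by_contra hcon
  push Not at hcon
  obtain ⟨⟨r, s⟩, hv⟩ := hM
  apply hv
  have hrep : ∀ r : R, ∃ (k : ℕ) (n : ℤ), r = n * q ^ k := by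
    intro r
    obtain ⟨k, n, hn⟩ := hR r
    refine ⟨k, n, ?_⟩
    rw [← hn]
    have h1 : (p : R) ^ k * q ^ k = 1 := by rw [← mul_pow, hpq, one_pow]
    calc r = r * ((p : R) ^ k * q ^ k) := by rw [h1, mul_one]
      _ = _ := by ring
  obtain ⟨k, n, hr⟩ := hrep r
  obtain ⟨l, m, hs⟩ := hrep s
  rw [ch_split h]
  have e1 : χ (r, 0) = 1 := by
    have : ((r, 0) : R × R) = n • ((q ^ k, 0) : R × R) := by
      ext
      · simp [hr]
      · simp
    rw [this]
    exact ch_zsmul_one h _ (hcon k).1 n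
  have e2 : χ (0, s) = 1 := by
    have : ((0, s) : R × R) = m • ((0, q ^ l) : R × R) := by
      ext
      · simp
      · simp [hs]
    rw [this]
    exact ch_zsmul_one h _ (hcon l).2 m
  rw [e1, e2, one_mul]

end chr

/-- **HS/PAD** -/
theorem t_pad : Pool.Agent.N298.HS.S_PAD := by
  refine ⟨12, by norm_num, ?_⟩
  intro p hp R _ _ q hpq hR μ _ ε hε hch hN hinv
  set E1 : Set (R × R → ℂ) := {χ | P1 (fun k => χ (q ^ k, 0)) (fun k => χ (0, q ^ k))} with hE1
  set E2 : Set (R × R → ℂ) := {χ | P1 (fun k => χ (0, q ^ k)) (fun k => χ (q ^ k, 0))} with hE2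
  set E3 : Set (R × R → ℂ) := {χ | P3 (fun k => χ (q ^ k, 0)) (fun k => χ (0, q ^ k))} with hE3
  set M : Set (R × R → ℂ) := {χ | ∃ v, χ v ≠ 1} with hM
  set N : Set (R × R → ℂ) := {χ | ¬ (χ (1, 0) = 1 ∧ χ (0, 1) = 1)} with hNd
  have m1 : ∀ v : R × R, MeasurableSet {χ : R × R → ℂ | χ v = 1} := fun v =>
    measurableSet_eq_fun (measurable_pi_apply v) measurable_const
  have m2 : ∀ v : R × R, MeasurableSet {χ : R × R → ℂ | χ v ≠ 1} := fun v => (m1 v).compl
  have mE1 : MeasurableSet E1 := by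
    have : E1 = ⋃ k : ℕ, ({χ | χ (q ^ k, 0) = 1} ∩ {χ | χ (0, q ^ k) ≠ 1}) := by
      ext χ
      simp only [hE1, P1, Set.mem_setOf_eq, Set.mem_iUnion, Set.mem_inter_iff]
    rw [this]
    exact MeasurableSet.iUnion fun k => (m1 _).inter (m2 _)
  have mE2 : MeasurableSet E2 := by
    have : E2 = ⋃ k : ℕ, ({χ | χ (0, q ^ k) = 1} ∩ {χ | χ (q ^ k, 0) ≠ 1}) := by
      ext χ
      simp only [hE2, P1, Set.mem_setOf_eq, Set.mem_iUnion, Set.mem_inter_iff]
    rw [this]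
    exact MeasurableSet.iUnion fun k => (m1 _).inter (m2 _)
  have mE3 : MeasurableSet E3 := by
    have : E3 = ⋃ k : ℕ, ({χ | χ (q ^ k, 0) * χ (0, q ^ k) = 1} ∩ {χ | χ (q ^ k, 0) ≠ 1}) := by
      ext χ
      simp only [hE3, P3, Set.mem_setOf_eq, Set.mem_iUnion, Set.mem_inter_iff]
    rw [this]
    refine MeasurableSet.iUnion fun k => MeasurableSet.inter ?_ (m2 _)
    exact measurableSet_eq_fun ((measurable_pi_apply ((q ^ k, 0) : R × R)).mul
      (measurable_pi_apply ((0, q ^ k) : R × R))) measurable_const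
  have hch' : ∀ᵐ χ ∂μ, Ch χ := hch
  -- disjointness
  have d12 : AEDisjoint μ E1 E2 := by
    have : ∀ᵐ χ ∂μ, χ ∉ E1 ∩ E2 := hch'.mono fun χ h hx =>
      dj12 (f_down hpq h) (g_down hpq h) hx
    exact measure_eq_zero_iff_ae_notMem.2 this
  have d13 : AEDisjoint μ E1 E3 := by
    have : ∀ᵐ χ ∂μ, χ ∉ E1 ∩ E3 := hch'.mono fun χ h hx =>
      dj13 (f_down hpq h) (g_down hpq h) hx
    exact measure_eq_zero_iff_ae_notMem.2 this
  have d23 : AEDisjoint μ E2 E3 := by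
    have : ∀ᵐ χ ∂μ, χ ∉ E2 ∩ E3 := hch'.mono fun χ h hx =>
      dj23 (f_down hpq h) (g_down hpq h) hx
    exact measure_eq_zero_iff_ae_notMem.2 this
  have hsum : μ.real E1 + μ.real E2 + μ.real E3 ≤ μ.real M := by
    have u1 : μ.real (E1 ∪ E2) = μ.real E1 + μ.real E2 :=
      measureReal_union₀ mE2.nullMeasurableSet d12
    have u2 : μ.real (E1 ∪ E2 ∪ E3) = μ.real (E1 ∪ E2) + μ.real E3 :=
      measureReal_union₀ mE3.nullMeasurableSet (AEDisjoint.union_left d13 d23)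
    rw [← u1, ← u2]
    refine measureReal_mono ?_
    rintro χ ((⟨k, h1, h2⟩ | ⟨k, h1, h2⟩) | ⟨k, h1, h2⟩)
    · exact ⟨_, h2⟩
    · exact ⟨_, h2⟩
    · exact ⟨_, h2⟩
  -- the rotation
  have r1 : μ.real {χ : R × R → ℂ | (fun v : R × R => χ (-v.2, v.1 - v.2)) ∈ E1} = μ.real E2 := by
    refine measureReal_congr ?_
    filter_upwards [hch'] with χ h
    apply propext
    show P1 (fun k => χ (-(0 : R), q ^ k - 0)) (fun k => χ (-(q ^ k), 0 - q ^ k)) ↔
      P1 (fun k => χ (0, q ^ k)) (fun k => χ (q ^ k, 0))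
    unfold P1
    refine exists_congr fun k => ?_
    beta_reduce
    rw [neg_zero, sub_zero]
    refine and_congr_right fun h1 => not_congr ?_
    have e : ((-(q ^ k), 0 - q ^ k) : R × R) = -(q ^ k, q ^ k) := by simp
    rw [e, ch_neg_one h, ch_split h, h1, mul_one]
  have r2 : μ.real {χ : R × R → ℂ | (fun v : R × R => χ (-v.2, v.1 - v.2)) ∈ E2} = μ.real E3 := by
    refine measureReal_congr ?_
    filter_upwards [hch'] with χ h
    apply propext
    show P1 (fun k => χ (-(q ^ k), 0 - q ^ k)) (fun k => χ (-(0 : R), q ^ k - 0)) ↔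
      P3 (fun k => χ (q ^ k, 0)) (fun k => χ (0, q ^ k))
    unfold P1 P3
    refine exists_congr fun k => ?_
    beta_reduce
    rw [neg_zero, sub_zero]
    have e : ((-(q ^ k), 0 - q ^ k) : R × R) = -(q ^ k, q ^ k) := by simp
    rw [e, ch_neg_one h, ch_split h]
    refine and_congr_right fun h1 => not_congr ?_
    constructor
    · intro h2
      rwa [h2, mul_one] at h1
    · intro h2
      rwa [h2, one_mul] at h1
  -- the ping-pong
  have hpp : μ.real M ≤ μ.real {χ : R × R → ℂ | (fun v : R × R => χ (p * v.1, q * v.2)) ∈ E1} +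
      μ.real E2 + μ.real N := by
    set E4 : Set (R × R → ℂ) := {χ | (fun v : R × R => χ (p * v.1, q * v.2)) ∈ E1} with hE4
    have h1 : μ M ≤ μ (E4 ∪ E2 ∪ N) := by
      refine measure_mono_ae ?_
      filter_upwards [hch'] with χ h hχ
      by_cases hx2 : χ ∈ E2
      · exact Or.inl (Or.inr hx2)
      · by_cases hxN : χ ∈ N
        · exact Or.inr hxN
        · refine Or.inl (Or.inl ?_)
          have hxN' : χ (1, 0) = 1 ∧ χ (0, 1) = 1 := by
            by_contra hcon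
            exact hxN hcon
          obtain ⟨k, k1, k2⟩ := pp (f_down hpq h) (g_down hpq h)
            (by rw [pow_zero]; exact hxN'.2) (all_one hpq hR h hχ) hx2
          refine ⟨k + 1, ?_, ?_⟩
          · show χ (p * q ^ (k + 1), q * 0) = 1
            rw [qpow hpq, mul_zero]
            exact k1
          · show χ (p * 0, q * q ^ (k + 1)) ≠ 1
            rw [mul_zero, ← pow_succ']
            exact k2
    have h2 : μ.real M ≤ μ.real (E4 ∪ E2 ∪ N) :=
      ENNReal.toReal_mono (measure_ne_top _ _) h1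
    refine h2.trans ((measureReal_union_le _ _).trans ?_)
    have := measureReal_union_le (μ := μ) E4 E2
    linarith
  obtain ⟨i1, i2⟩ := hinv E1 mE1
  obtain ⟨i3, -⟩ := hinv E2 mE2
  rw [r1] at i1
  rw [r2] at i3
  obtain ⟨a1, a2⟩ := abs_le.1 i1
  obtain ⟨b1, b2⟩ := abs_le.1 i2
  obtain ⟨c1, c2⟩ := abs_le.1 i3
  linarith

end Pool.Agent.N711.HS.PAD
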